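import Mathlib

namespace Pool.Agent.Results.MP_35dbbb_co.Counter

/-- `c` is nonrepetitive: no path `v 0, …, v (2t-1)` (`t ≥ 1`) is coloured as a square. -/
def Nonrep {V C : Type} (G : SimpleGraph V) (c : V → C) : Prop :=
  ∀ (t : ℕ) (v : ℕ → V), 1 ≤ t → (∀ i, i + 1 < 2 * t → G.Adj (v i) (v (i + 1))) →
    (∀ i j, i < 2 * t → j < 2 * t → v i = v j → i = j) → ¬ ∀ i, i < t → c (v i) = c (v (i + t))

/-- The Thue chromatic number. -/
noncomputable def thue {V : Type} (G : SimpleGraph V) : ℕ :=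
  sInf {k | ∃ c : V → Fin k, Nonrep G c}

/-- Lexicographic product. -/
def lex {V W : Type} (G : SimpleGraph V) (H : SimpleGraph W) : SimpleGraph (V × W) where
  Adj x y := G.Adj x.1 y.1 ∨ (x.1 = y.1 ∧ H.Adj x.2 y.2)
  symm := ⟨fun _ _ h => h.elim (fun h => Or.inl h.symm) (fun h => Or.inr ⟨h.1.symm, h.2.symm⟩)⟩
  loopless := ⟨fun _ h => h.elim (fun h => h.ne rfl) (fun h => h.2.ne rfl)⟩

def C7 : SimpleGraph (Fin 7) where
  Adj u v := v = u + 1 ∨ u = v + 1
  symm := ⟨fun _ _ h => h.symm⟩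
  loopless := ⟨by decide⟩

abbrev VV := Fin 7 × Fin 2

def col (x : VV) : Fin 6 := ![![0, 0], ![1, 2], ![0, 0], ![3, 4], ![0, 1], ![5, 5], ![3, 4]] x.1 x.2

def enc (x : VV) : ℕ := 2 * x.1.1 + x.2.1

def cn (x : ℕ) : ℕ := (2453643461696 >>> (3 * x)) % 8

def nbrs (x : ℕ) : List ℕ :=
  [2 * ((x / 2 + 1) % 7), 2 * ((x / 2 + 1) % 7) + 1, 2 * ((x / 2 + 6) % 7), 2 * ((x / 2 + 6) % 7) + 1]

lemma mem_nbrs : ∀ x y : VV, (y.1 = x.1 + 1 ∨ x.1 = y.1 + 1) → enc y ∈ nbrs (enc x) := by decide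
lemma cn_enc : ∀ x : VV, cn (enc x) = (col x).1 := by decide
lemma enc_inj : ∀ x y : VV, enc x = enc y → x = y := by decide
lemma enc_lt : ∀ x : VV, enc x < 14 := by decide

def has (w : ℕ) : List ℕ → Bool
  | [] => false
  | a :: l => Nat.beq w a || has w l

lemma has_mem (w : ℕ) (l : List ℕ) (h : has w l = true) : w ∈ l := by
  induction l with
  | nil => simp [has] at h
  | cons a l ih =>
    simp only [has, Bool.or_eq_true, Nat.beq_eq] at h
    rcases h with rfl | h
    · simp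
    · exact List.mem_cons_of_mem _ (ih h)

/-- `ok t r x acc`: no completion by `r` further vertices. -/
def ok (t : ℕ) : ℕ → ℕ → List ℕ → Bool
  | 0, _, _ => false
  | r + 1, x, acc => (nbrs x).all fun w =>
      has w acc || (Nat.ble (r + 1) t && !Nat.beq (cn w) (cn ((x :: acc).getD (t - 1) x))) ||
        ok t r w (x :: acc)

def pre (v : ℕ → ℕ) : ℕ → List ℕ
  | 0 => []
  | m + 1 => v m :: pre v m

lemma mem_pre (v : ℕ → ℕ) (m : ℕ) (w : ℕ) (h : w ∈ pre v m) : ∃ i < m, v i = w := by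
  induction m with
  | zero => simp [pre] at h
  | succ m ih =>
    rcases List.mem_cons.1 h with rfl | h
    · exact ⟨m, by omega, rfl⟩
    · obtain ⟨i, hi, e⟩ := ih h; exact ⟨i, by omega, e⟩

lemma pre_getD (v : ℕ → ℕ) (d : ℕ) (m j : ℕ) (h : j < m) :
    (pre v m).getD j d = v (m - 1 - j) := by
  induction m generalizing j with
  | zero => omega
  | succ m ih =>
    cases j with
    | zero => simp [pre]
    | succ j =>
      simp only [pre, List.getD_cons_succ]
      rw [ih j (by omega)]; congr 1; omega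

lemma ok_false (t : ℕ) (v : ℕ → ℕ) (ht : 1 ≤ t)
    (h1 : ∀ i, i + 1 < 2 * t → v (i + 1) ∈ nbrs (v i))
    (h2 : ∀ i j, i < 2 * t → j < 2 * t → v i = v j → i = j)
    (h3 : ∀ i, i < t → cn (v i) = cn (v (i + t))) :
    ∀ r m, m + 1 + r = 2 * t → ok t r (v m) (pre v m) = false := by
  intro r
  induction r with
  | zero => intro m _; rfl
  | succ r ih =>
    intro m hm
    rw [ok, List.all_eq_false]
    refine ⟨v (m + 1), h1 m (by omega), ?_⟩
    have e : v m :: pre v m = pre v (m + 1) := rfl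
    rw [e, ih (m + 1) (by omega)]
    simp only [Bool.or_false, Bool.or_eq_true, Bool.and_eq_true, Nat.ble_eq, Bool.not_eq_true',
      not_or, not_and, Bool.not_eq_false, Nat.beq_eq]
    refine ⟨fun h => ?_, fun h => ?_⟩
    · obtain ⟨i, hi, e⟩ := mem_pre _ _ _ (has_mem _ _ h)
      have := h2 i (m + 1) (by omega) (by omega) e
      omega
    · rw [pre_getD _ _ _ _ (by omega), h3 (m + 1 - 1 - (t - 1)) (by omega)]
      congr 2; omega

def chk (t : ℕ) : Bool := (List.range 14).all fun x => ok (t + 1) (2 * t + 1) x []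

lemma c0 : chk 0 = true := by decide +kernel
lemma c1 : chk 1 = true := by decide +kernel
lemma c2 : chk 2 = true := by decide +kernel
lemma c3 : chk 3 = true := by decide +kernel
lemma c4 : chk 4 = true := by decide +kernel
lemma c5 : chk 5 = true := by decide +kernel
lemma c6 : chk 6 = true := by decide +kernel

lemma all_ok (t : ℕ) (ht : t < 7) (x : ℕ) (hx : x < 14) : ok (t + 1) (2 * t + 1) x [] = true := by
  have : chk t = true := by
    interval_cases t
    exacts [c0, c1, c2, c3, c4, c5, c6]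
  exact List.all_eq_true.1 this x (List.mem_range.2 hx)

lemma upper : Nonrep (lex C7 (⊥ : SimpleGraph (Fin 2))) col := by
  intro t v ht h1 h2 h3
  have hle : 2 * t ≤ 14 := by
    have := Fintype.card_le_of_injective (fun i : Fin (2 * t) => v i)
      (fun i j h => Fin.ext (h2 i j i.2 j.2 h))
    simpa using this
  obtain ⟨s, rfl⟩ : ∃ s, t = s + 1 := ⟨t - 1, by omega⟩
  have := ok_false (s + 1) (fun i => enc (v i)) ht (fun i hi => mem_nbrs _ _ (by
    rcases h1 i hi with h | h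
    · exact h
    · exact absurd h.2 (by simp))) (fun i j hi hj e => h2 i j hi hj (enc_inj _ _ e))
    (fun i hi => by rw [cn_enc, cn_enc, h3 i hi]) (2 * s + 1) 0 (by omega)
  have h := all_ok s (by omega) (enc (v 0)) (enc_lt _)
  rw [show pre (fun i => enc (v i)) 0 = [] from rfl, h] at this
  exact absurd this (by simp)

lemma three : ∀ c : Fin 7 → Fin 3, ∃ a : Fin 7, ∃ t ∈ [1, 2, 3], ∀ i, i < t →
    c (a + Fin.ofNat 7 i) = c (a + Fin.ofNat 7 (i + t)) := by decide +kernel

lemma lower (k : ℕ) (c : Fin 7 → Fin k) (h : Nonrep C7 c) : 4 ≤ k := by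
  by_contra hk
  obtain ⟨a, t, ht, h3⟩ := three (fun x => Fin.castLE (by omega) (c x))
  have ht' : 1 ≤ t ∧ t ≤ 3 := by simp at ht; omega
  refine h t (fun i => a + Fin.ofNat 7 i) ht'.1 (fun i _ => Or.inl ?_) (fun i j hi hj e => ?_)
    (fun i hi => Fin.castLE_injective _ (h3 i hi))
  · rw [add_assoc]; congr 1
    apply Fin.ext; simp [Fin.val_add]
  · have := congrArg Fin.val (add_left_cancel e)
    simp at this; omega

lemma nonrep_inj {V : Type} (G : SimpleGraph V) {k : ℕ} (c : V → Fin k)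
    (hc : Function.Injective c) : Nonrep G c := by
  intro t v ht _ h2 h3
  have := h2 0 (0 + t) (by omega) (by omega) (hc (h3 0 (by omega)))
  omega

theorem result : ¬ ∀ (V W : Type) [Fintype V] [Fintype W] (G : SimpleGraph V) (H : SimpleGraph W),
    (thue H : ℤ) + ((thue G : ℤ) - 1) * Fintype.card W ≤ thue (lex G H) := by
  intro h
  have h0 := h (Fin 7) (Fin 2) C7 ⊥
  have h1 : thue (lex C7 (⊥ : SimpleGraph (Fin 2))) ≤ 6 := Nat.sInf_le ⟨col, upper⟩
  have h2 : 4 ≤ thue C7 := le_csInf ⟨7, id, nonrep_inj _ _ Function.injective_id⟩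
    (by rintro k ⟨c, hc⟩; exact lower k c hc)
  have h3 : 1 ≤ thue (⊥ : SimpleGraph (Fin 2)) := le_csInf
    ⟨2, id, nonrep_inj _ _ Function.injective_id⟩ (by
      rintro k ⟨c, -⟩
      have := (c 0).2; omega)
  simp at h0
  omega

end Pool.Agent.Results.MP_35dbbb_co.Counter
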